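import Mathlib

/-! Fair division of indivisible goods: allocations, EF1 and SD-EF1. -/

namespace Pool.Agent.Hhelper76.FairDiv

variable {M : Type*} [Fintype M] [DecidableEq M] {n : ℕ}

/-- Value of a set of goods under an additive valuation, given by its values on single goods. -/
def value (w : M → ℝ) (S : Finset M) : ℝ := ∑ g ∈ S, w g

/-- The bundle of agent `i` in the allocation `A`, where `A g` is the agent who gets good `g`. -/
def bundle (A : M → Fin n) (i : Fin n) : Finset M := Finset.univ.filter (fun g => A g = i)

/-- `A` is EF1 with respect to the profile `w` of additive valuations: for all agents `i, j`,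
the bundle of `j` is empty or agent `i` values her bundle at least as much as the bundle of `j`
minus some good `g` of it. -/
def EF1 (w : Fin n → M → ℝ) (A : M → Fin n) : Prop :=
  ∀ i j : Fin n, bundle A j = ∅ ∨
    ∃ g ∈ bundle A j, value (w i) ((bundle A j).erase g) ≤ value (w i) (bundle A i)

/-- `A` is SD-EF1 with respect to the profile `w`: for all agents `i, j` and every good `g`,
with `T = {x : w i g ≤ w i x}`, one has `|A_j ∩ T| ≤ |A_i ∩ T| + 1`. -/
def SDEF1 (w : Fin n → M → ℝ) (A : M → Fin n) : Prop :=
  ∀ (i j : Fin n) (g : M),
    ((bundle A j).filter (fun x => w i g ≤ w i x)).card ≤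
      ((bundle A i).filter (fun x => w i g ≤ w i x)).card + 1

end Pool.Agent.Hhelper76.FairDiv
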