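import Mathlib

namespace Pool.Agent.Hhelper76.SDEF

/-- Two fixed-point-free involutions on a type have a common transversal-type set:
a set containing exactly one point of each pair of either involution. -/
theorem exists_split {X : Type*} [Finite X] (t1 t2 : Equiv.Perm X)
    (h1 : ∀ x, t1 (t1 x) = x) (h2 : ∀ x, t2 (t2 x) = x)
    (n1 : ∀ x, t1 x ≠ x) (n2 : ∀ x, t2 x ≠ x) :
    ∃ A : Set X, (∀ x, t1 x ∈ A ↔ x ∉ A) ∧ (∀ x, t2 x ∈ A ↔ x ∉ A) := by
  classical
  have : Fintype X := Fintype.ofFinite X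
  set s : Equiv.Perm X := t2 * t1 with hs
  have hsx : ∀ x, s x = t2 (t1 x) := fun x => rfl
  have hinv : ∀ x, s⁻¹ x = t1 (t2 x) := by
    intro x
    rw [Equiv.Perm.inv_eq_iff_eq, hsx, h1, h2]
  have hcomm : ∀ (k : ℤ), t1 * s ^ k = s ^ (-k) * t1 := by
    intro k
    have hbase : t1 * s * t1 = s⁻¹ := by
      ext x
      simp only [Equiv.Perm.mul_apply, hinv, hsx, h1]
    have hb2 : t1 * t1 = 1 := by ext x; simp [h1]
    have hb3 : t1⁻¹ = t1 := by
      rw [inv_eq_iff_mul_eq_one]; exact hb2
    have : t1 * s ^ k * t1⁻¹ = s ^ (-k) := by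
      rw [← conj_zpow, hb3, hbase, inv_zpow']
    rw [← this, hb3, mul_assoc, mul_assoc, hb2, mul_one]
  have hcommx : ∀ (k : ℤ) x, t1 ((s ^ k) x) = (s ^ (-k)) (t1 x) := by
    intro k x
    have := congrArg (fun e : Equiv.Perm X => e x) (hcomm k)
    simpa [Equiv.Perm.mul_apply] using this
  have key : ∀ x, ¬ s.SameCycle x (t1 x) := by
    rintro x ⟨i, hi⟩
    rcases Int.even_or_odd' i with ⟨j, hj | hj⟩
    · apply n1 ((s ^ j) x)
      rw [hcommx, ← hi, ← Equiv.Perm.mul_apply, ← zpow_add]
      congr 2; omega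
    · apply n2 ((s ^ (j + 1)) x)
      have : ∀ y, t2 y = s (t1 y) := by intro y; rw [hsx, h1]
      rw [this, hcommx, ← hi]
      have h3 : s ((s ^ (-(j + 1))) ((s ^ i) x)) = (s ^ (1 + (-(j + 1) + i))) x := by
        rw [zpow_add, zpow_add, zpow_one]; rfl
      rw [h3]
      congr 2; omega
  -- labels of cycles
  let Q := Quotient (Equiv.Perm.SameCycle.setoid s)
  have : Fintype Q := Fintype.ofFinite Q
  let q : X → ℕ := fun x => (Fintype.equivFin Q (Quotient.mk _ x)).val
  have hq : ∀ x y, q x = q y ↔ s.SameCycle x y := by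
    intro x y
    constructor
    · intro h
      have h' : (Quotient.mk (Equiv.Perm.SameCycle.setoid s) x) = Quotient.mk _ y := by
        apply (Fintype.equivFin Q).injective
        exact Fin.ext h
      exact Quotient.exact h'
    · intro h
      have h' : (Quotient.mk (Equiv.Perm.SameCycle.setoid s) x) = Quotient.mk _ y :=
        Quotient.sound h
      simp only [q, h']
  have q1 : ∀ x, q (s x) = q x := by
    intro x; rw [hq]; exact ⟨-1, by simp⟩
  have q2 : ∀ x, q (s⁻¹ x) = q x := by
    intro x; rw [hq]; exact ⟨1, by simp⟩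
  have qne : ∀ x, q x ≠ q (t1 x) := fun x h => key x ((hq _ _).1 h)
  refine ⟨{x | q x < q (t1 x)}, ?_, ?_⟩
  · intro x
    simp only [Set.mem_ofPred_eq, h1, not_lt]
    exact ⟨fun h => h.le, fun h => lt_of_le_of_ne h (qne x).symm⟩
  · intro x
    have e1 : q (t2 x) = q (t1 x) := by
      have : t2 x = s (t1 x) := by rw [hsx, h1]
      rw [this, q1]
    have e2 : q (t1 (t2 x)) = q x := by rw [← hinv, q2]
    simp only [Set.mem_ofPred_eq, e1, e2, not_lt]
    exact ⟨fun h => h.le, fun h => lt_of_le_of_ne h (qne x).symm⟩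



section Chain

variable {X : Type*} [Fintype X] [DecidableEq X]

/-- Sign of a good in the state `K`: goods in `A` are positive unless flipped,
goods outside `A` are negative unless their `t2`-partner is flipped. -/
def sgn (A : Finset X) (t2 : X → X) (K : Finset X) (x : X) : ℤ :=
  if x ∈ A then (if x ∈ K then -1 else 1) else (if t2 x ∈ K then 1 else -1)

/-- Admissible states. -/
def Valid (A : Finset X) (t1 t2 : X → X) (rho : X → ℕ) (K : Finset X) : Prop :=
  K ⊆ A ∧ ((∀ x ∈ A, (x ∈ K ↔ t2 (t1 x) ∈ K)) ∨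
    ∃ a z, a ∈ A ∧ a ∉ K ∧ t2 (t1 a) ∈ K ∧ z ∈ K ∧ t2 (t1 z) ∉ K ∧
      (∀ x ∈ A, x ≠ a → x ≠ z → (x ∈ K ↔ t2 (t1 x) ∈ K)) ∧
      (∀ x ∈ A, x ∉ K → rho a ≤ rho x) ∧ rho a < rho z)

theorem valid_empty (A : Finset X) (t1 t2 : X → X) (rho : X → ℕ) :
    Valid A t1 t2 rho ∅ := by
  refine ⟨by simp, Or.inl ?_⟩
  intro x _; simp

theorem valid_step {A : Finset X} {t1 t2 : X → X} {rho : X → ℕ}
    (h1 : ∀ x, t1 (t1 x) = x) (h2 : ∀ x, t2 (t2 x) = x)
    (hA1 : ∀ x, t1 x ∈ A ↔ x ∉ A) (hA2 : ∀ x, t2 x ∈ A ↔ x ∉ A)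
    (hinj : ∀ x ∈ A, ∀ y ∈ A, rho x = rho y → x = y)
    {K : Finset X} (hK : Valid A t1 t2 rho K) (hne : K ≠ A) :
    ∃ e ∈ A, e ∉ K ∧ Valid A t1 t2 rho (insert e K) := by
  have piA : ∀ x ∈ A, t2 (t1 x) ∈ A := by
    intro x hx; rw [hA2, hA1]; simpa using hx
  have piinj : ∀ x y, t2 (t1 x) = t2 (t1 y) → x = y := by
    intro x y h
    have := congrArg t2 h
    rw [h2, h2] at this
    have := congrArg t1 this
    rwa [h1, h1] at this
  obtain ⟨hKA, hK⟩ := hK
  rcases hK with hinv | ⟨a, z, haA, haK, hpa, hzK, hpz, hrest, hmin, hlt⟩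
  · -- invariant case
    have hex : (A \ K).Nonempty := by
      rw [Finset.sdiff_nonempty]
      intro h; exact hne (Finset.Subset.antisymm hKA h)
    obtain ⟨a, ha, hamin⟩ := Finset.exists_min_image (A \ K) rho hex
    rw [Finset.mem_sdiff] at ha
    obtain ⟨haA, haK⟩ := ha
    have hamin' : ∀ x ∈ A, x ∉ K → rho a ≤ rho x := fun x hx hxK =>
      hamin x (Finset.mem_sdiff.2 ⟨hx, hxK⟩)
    by_cases hfix : t2 (t1 a) = a
    · refine ⟨a, haA, haK, Finset.insert_subset haA hKA, Or.inl ?_⟩
      intro x hx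
      by_cases hxa : x = a
      · subst hxa; simp [hfix]
      · have : t2 (t1 x) ≠ a := by
          intro h; exact hxa (piinj _ _ (h.trans hfix.symm))
        simp only [Finset.mem_insert, hxa, this, false_or]
        exact hinv x hx
    · have heK : t2 (t1 a) ∉ K := fun h => haK ((hinv a haA).2 h)
      refine ⟨t2 (t1 a), piA a haA, heK, Finset.insert_subset (piA a haA) hKA, Or.inr ?_⟩
      refine ⟨a, t2 (t1 a), haA, ?_, ?_, ?_, ?_, ?_, ?_, ?_⟩
      · simp only [Finset.mem_insert, not_or]; exact ⟨fun h => hfix h.symm, haK⟩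
      · simp
      · simp
      · simp only [Finset.mem_insert, not_or]
        refine ⟨fun h => hfix (piinj _ _ h), ?_⟩
        intro h; exact heK ((hinv _ (piA a haA)).2 h)
      · intro x hx hxa hxe
        have h3 : t2 (t1 x) ≠ t2 (t1 a) := fun h => hxa (piinj _ _ h)
        simp only [Finset.mem_insert, hxe, h3, false_or]
        exact hinv x hx
      · intro x hx hxK
        apply hamin' x hx
        intro h; exact hxK (Finset.mem_insert_of_mem h)
      · refine lt_of_le_of_ne (hamin' _ (piA a haA) heK) ?_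
        intro h; exact hfix (hinj _ haA _ (piA a haA) h).symm
  · -- one credit at `a`, one debit at `z`
    have hzA : z ∈ A := hKA hzK
    have haz : a ≠ z := fun h => haK (h ▸ hzK)
    by_cases hea : t2 (t1 z) = a
    · refine ⟨a, haA, haK, Finset.insert_subset haA hKA, Or.inl ?_⟩
      intro x hx
      by_cases hxa : x = a
      · subst hxa; simp [hpa]
      · by_cases hxz : x = z
        · subst hxz; simp [hea, hzK]
        · have h3 : t2 (t1 x) ≠ a := fun h => hxz (piinj _ _ (h.trans hea.symm))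
          simp only [Finset.mem_insert, hxa, h3, false_or]
          exact hrest x hx hxa hxz
    · have heA := piA z hzA
      have hez : t2 (t1 z) ≠ z := fun h => hpz (h.symm ▸ hzK)
      have hpe : t2 (t1 (t2 (t1 z))) ∉ K := by
        intro h; exact hpz ((hrest _ heA hea hez).2 h)
      refine ⟨t2 (t1 z), heA, hpz, Finset.insert_subset heA hKA, Or.inr ?_⟩
      refine ⟨a, t2 (t1 z), haA, ?_, ?_, ?_, ?_, ?_, ?_, ?_⟩
      · simp only [Finset.mem_insert, not_or]; exact ⟨fun h => hea h.symm, haK⟩
      · exact Finset.mem_insert_of_mem hpa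
      · simp
      · simp only [Finset.mem_insert, not_or]
        exact ⟨fun h => hez (piinj _ _ h), hpe⟩
      · intro x hx hxa hxe
        by_cases hxz : x = z
        · subst hxz
          simp only [Finset.mem_insert, hzK, or_true, true_or]
        · have h3 : t2 (t1 x) ≠ t2 (t1 z) := fun h => hxz (piinj _ _ h)
          simp only [Finset.mem_insert, hxe, h3, false_or]
          exact hrest x hx hxa hxz
      · intro x hx hxK
        apply hmin x hx
        intro h; exact hxK (Finset.mem_insert_of_mem h)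
      · refine lt_of_le_of_ne (hmin _ heA hpz) ?_
        intro h; exact hea (hinj _ haA _ heA h).symm

/-- sums over unions of `t`-pairs -/
theorem sum_pairs {A : Finset X} {t : X → X} (h : ∀ x, t (t x) = x)
    (hA : ∀ x, t x ∈ A ↔ x ∉ A) {rho : X → ℕ} (hr : ∀ x, rho (t x) = rho x)
    (f : X → ℤ) (r : ℕ) :
    ∑ x ∈ Finset.univ.filter (fun x => rho x < r), f x =
      ∑ x ∈ A.filter (fun x => rho x < r), (f x + f (t x)) := by
  have hsplit : ∑ x ∈ Finset.univ.filter (fun x => rho x < r), f x =
      ∑ x ∈ A.filter (fun x => rho x < r), f x +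
      ∑ x ∈ (Aᶜ).filter (fun x => rho x < r), f x := by
    rw [← Finset.sum_union]
    · congr 1
      ext x; simp only [Finset.mem_filter, Finset.mem_univ, true_and, Finset.mem_union,
        Finset.mem_compl]
      tauto
    · rw [Finset.disjoint_left]
      intro x hx hx'
      simp only [Finset.mem_filter, Finset.mem_compl] at hx hx'
      exact hx'.1 hx.1
  rw [hsplit, Finset.sum_add_distrib]
  congr 1
  refine Finset.sum_nbij' t t ?_ ?_ ?_ ?_ ?_
  · intro x hx
    simp only [Finset.mem_filter, Finset.mem_compl] at hx ⊢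
    exact ⟨(hA x).2 hx.1, by rw [hr]; exact hx.2⟩
  · intro x hx
    simp only [Finset.mem_filter, Finset.mem_compl] at hx ⊢
    refine ⟨?_, by rw [hr]; exact hx.2⟩
    rw [hA]; simpa using hx.1
  · intro x _; exact h x
  · intro x _; exact h x
  · intro x _; rw [h]

theorem sum_sgn_t2 {A : Finset X} {t2 : X → X} (h2 : ∀ x, t2 (t2 x) = x)
    (hA2 : ∀ x, t2 x ∈ A ↔ x ∉ A) {rho : X → ℕ} (hr : ∀ x, rho (t2 x) = rho x)
    (K : Finset X) (r : ℕ) :
    ∑ x ∈ Finset.univ.filter (fun x => rho x < r), sgn A t2 K x = 0 := by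
  rw [sum_pairs h2 hA2 hr]
  apply Finset.sum_eq_zero
  intro x hx
  have hxA : x ∈ A := (Finset.mem_filter.1 hx).1
  have hx' : t2 x ∉ A := by rw [hA2]; simpa using hxA
  simp only [sgn, hxA, hx', if_true, if_false, h2]
  split_ifs <;> simp

theorem sum_sgn_t1 {A : Finset X} {t1 t2 : X → X} {rho : X → ℕ}
    (h1 : ∀ x, t1 (t1 x) = x)
    (hA1 : ∀ x, t1 x ∈ A ↔ x ∉ A) (hr : ∀ x, rho (t1 x) = rho x)
    {K : Finset X} (hK : Valid A t1 t2 rho K) (r : ℕ) :
    0 ≤ ∑ x ∈ Finset.univ.filter (fun x => rho x < r), sgn A t2 K x := by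
  rw [sum_pairs h1 hA1 hr]
  obtain ⟨hKA, hK⟩ := hK
  have hterm : ∀ x ∈ A, sgn A t2 K x + sgn A t2 K (t1 x) =
      (if t2 (t1 x) ∈ K then 2 else 0) - (if x ∈ K then 2 else 0) := by
    intro x hxA
    have hx' : t1 x ∉ A := by rw [hA1]; simpa using hxA
    simp only [sgn, hxA, hx', if_true, if_false]
    split_ifs <;> simp
  rcases hK with hinv | ⟨a, z, haA, haK, hpa, hzK, hpz, hrest, hmin, hlt⟩
  · apply le_of_eq
    symm
    apply Finset.sum_eq_zero
    intro x hx
    have hxA : x ∈ A := (Finset.mem_filter.1 hx).1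
    rw [hterm x hxA]
    by_cases hxK : x ∈ K
    · simp [hxK, (hinv x hxA).1 hxK]
    · have : t2 (t1 x) ∉ K := fun h => hxK ((hinv x hxA).2 h)
      simp [hxK, this]
  · have haz : a ≠ z := fun h => haK (h ▸ hzK)
    have heq : ∑ x ∈ A.filter (fun x => rho x < r), (sgn A t2 K x + sgn A t2 K (t1 x)) =
        ∑ x ∈ A.filter (fun x => rho x < r),
          ((if x = a then (2 : ℤ) else 0) - (if x = z then 2 else 0)) := by
      apply Finset.sum_congr rfl
      intro x hx
      have hxA : x ∈ A := (Finset.mem_filter.1 hx).1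
      rw [hterm x hxA]
      by_cases hxa : x = a
      · subst hxa; simp [hpa, haK, haz]
      · by_cases hxz : x = z
        · subst hxz; simp [hpz, hzK, hxa]
        · have hi := hrest x hxA hxa hxz
          simp only [hxa, hxz, if_false]
          by_cases hxK : x ∈ K
          · simp [hxK, hi.1 hxK]
          · have : t2 (t1 x) ∉ K := fun h => hxK (hi.2 h)
            simp [hxK, this]
    rw [heq, Finset.sum_sub_distrib, Finset.sum_ite_eq', Finset.sum_ite_eq']
    have hzA := hKA hzK
    by_cases hz : rho z < r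
    · have ha : rho a < r := lt_trans hlt hz
      simp [hz, ha, haA, hzA]
    · simp only [Finset.mem_filter, hz, and_false, if_false, sub_zero]
      split_ifs <;> simp

/-- value difference in state `K` -/
def DD (A : Finset X) (t2 : X → X) (v : X → ℝ) (K : Finset X) : ℝ :=
  ∑ x, v x * (sgn A t2 K x : ℝ)

theorem sgn_insert {A : Finset X} {t2 : X → X} (h2 : ∀ x, t2 (t2 x) = x)
    (hA2 : ∀ x, t2 x ∈ A ↔ x ∉ A) {K : Finset X} {e : X}
    (he : e ∈ A) (heK : e ∉ K) (x : X) :
    sgn A t2 (insert e K) x = sgn A t2 K x +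
      ((if x = e then -2 else 0) + (if x = t2 e then 2 else 0)) := by
  have hte : t2 e ∉ A := by rw [hA2]; simpa using he
  by_cases hxA : x ∈ A
  · have hxte : x ≠ t2 e := fun h => hte (h ▸ hxA)
    by_cases hxe : x = e
    · subst hxe; simp [sgn, hxA, heK, hxte]
    · simp [sgn, hxA, hxe, hxte]
  · have hxe : x ≠ e := fun h => hxA (h ▸ he)
    by_cases hxte : x = t2 e
    · subst hxte; simp [sgn, hxA, h2, heK, hxe]
    · have : t2 x ≠ e := fun h => hxte (by rw [← h, h2])
      simp [sgn, hxA, hxe, hxte, this]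

theorem DD_insert {A : Finset X} {t2 : X → X} (h2 : ∀ x, t2 (t2 x) = x)
    (hA2 : ∀ x, t2 x ∈ A ↔ x ∉ A) (v : X → ℝ) {K : Finset X} {e : X}
    (he : e ∈ A) (heK : e ∉ K) :
    DD A t2 v (insert e K) = DD A t2 v K - 2 * v e + 2 * v (t2 e) := by
  unfold DD
  have : ∀ x, v x * (sgn A t2 (insert e K) x : ℝ) = v x * (sgn A t2 K x : ℝ) +
      ((if x = e then -2 * v x else 0) + (if x = t2 e then 2 * v x else 0)) := by
    intro x
    rw [sgn_insert h2 hA2 he heK]
    push_cast
    split_ifs <;> ring
  simp_rw [this]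
  rw [Finset.sum_add_distrib, Finset.sum_add_distrib, Finset.sum_ite_eq', Finset.sum_ite_eq']
  simp
  ring

theorem DD_full {A : Finset X} {t2 : X → X} 
    (hA2 : ∀ x, t2 x ∈ A ↔ x ∉ A) (v : X → ℝ) :
    DD A t2 v A = - DD A t2 v ∅ := by
  unfold DD
  rw [← Finset.sum_neg_distrib]
  apply Finset.sum_congr rfl
  intro x _
  by_cases hx : x ∈ A
  · simp [sgn, hx]
  · simp [sgn, hx, hA2]

/-- The discrete crossing argument. -/
theorem exists_state {A : Finset X} {t1 t2 : X → X} {rho : X → ℕ}
    (h1 : ∀ x, t1 (t1 x) = x) (h2 : ∀ x, t2 (t2 x) = x)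
    (hA1 : ∀ x, t1 x ∈ A ↔ x ∉ A) (hA2 : ∀ x, t2 x ∈ A ↔ x ∉ A)
    (hinj : ∀ x ∈ A, ∀ y ∈ A, rho x = rho y → x = y)
    (v : X → ℝ) (hv : ∀ x, 0 ≤ v x) (h0 : 0 ≤ DD A t2 v ∅) :
    ∃ K, Valid A t1 t2 rho K ∧ (DD A t2 v K = 0 ∨
      (∃ g, sgn A t2 K g = 1 ∧ 0 ≤ DD A t2 v K ∧ DD A t2 v K ≤ v g) ∨
      (∃ g, sgn A t2 K g = -1 ∧ DD A t2 v K ≤ 0 ∧ - DD A t2 v K ≤ v g)) := by
  have hA : DD A t2 v A ≤ 0 := by rw [DD_full hA2]; linarith
  have main : ∀ n (K : Finset X), (A \ K).card = n → Valid A t1 t2 rho K → 0 ≤ DD A t2 v K →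
      ∃ K, Valid A t1 t2 rho K ∧ (DD A t2 v K = 0 ∨
      (∃ g, sgn A t2 K g = 1 ∧ 0 ≤ DD A t2 v K ∧ DD A t2 v K ≤ v g) ∨
      (∃ g, sgn A t2 K g = -1 ∧ DD A t2 v K ≤ 0 ∧ - DD A t2 v K ≤ v g)) := by
    intro n
    induction n with
    | zero =>
      intro K hc hV hD
      have : K = A := by
        apply Finset.Subset.antisymm hV.1
        rw [← Finset.sdiff_eq_empty_iff_subset]
        exact Finset.card_eq_zero.1 hc
      subst this
      exact ⟨K, hV, Or.inl (le_antisymm hA hD)⟩
    | succ n ih =>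
      intro K hc hV hD
      have hne : K ≠ A := by
        rintro rfl; simp at hc
      obtain ⟨e, heA, heK, hV'⟩ := valid_step h1 h2 hA1 hA2 hinj hV hne
      have hc' : (A \ insert e K).card = n := by
        rw [Finset.sdiff_insert, Finset.card_erase_of_mem (Finset.mem_sdiff.2 ⟨heA, heK⟩), hc]
        rfl
      by_cases hD' : 0 ≤ DD A t2 v (insert e K)
      · exact ih _ hc' hV' hD'
      · push Not at hD'
        have hdd := DD_insert h2 hA2 v heA heK
        have hvt := hv (t2 e)
        by_cases hle : DD A t2 v K ≤ v e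
        · refine ⟨K, hV, Or.inr (Or.inl ⟨e, ?_, hD, hle⟩)⟩
          simp [sgn, heA, heK]
        · push Not at hle
          refine ⟨insert e K, hV', Or.inr (Or.inr ⟨e, ?_, hD'.le, ?_⟩)⟩
          · simp [sgn, heA]
          · linarith
  exact main _ ∅ rfl (valid_empty A t1 t2 rho) h0

end Chain


section Even

/-- The partner of the position `k` in the pairing `{0,1},{2,3},…`. -/
def flp (k : ℕ) : ℕ := if k % 2 = 0 then k + 1 else k - 1

theorem flp_flp (k : ℕ) : flp (flp k) = k := by
  unfold flp; split_ifs <;> omega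

theorem flp_ne (k : ℕ) : flp k ≠ k := by
  unfold flp; split_ifs <;> omega

theorem flp_div (k : ℕ) : flp k / 2 = k / 2 := by
  unfold flp; split_ifs <;> omega

theorem flp_lt {R k : ℕ} (h : k < 2 * R) : flp k < 2 * R := by
  unfold flp; split_ifs <;> omega

theorem eq_or_flp {k l : ℕ} (h : k / 2 = l / 2) : l = k ∨ l = flp k := by
  unfold flp; split_ifs <;> omega

def flpFin (R : ℕ) (k : Fin (2 * R)) : Fin (2 * R) := ⟨flp k.val, flp_lt k.isLt⟩

variable {X : Type*} {R : ℕ}

def partner (e : Fin (2 * R) ≃ X) (x : X) : X := e (flpFin R (e.symm x))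

theorem partner_partner (e : Fin (2 * R) ≃ X) (x : X) : partner e (partner e x) = x := by
  unfold partner
  rw [Equiv.symm_apply_apply]
  have : flpFin R (flpFin R (e.symm x)) = e.symm x := by
    apply Fin.ext; simp [flpFin, flp_flp]
  rw [this, Equiv.apply_symm_apply]

theorem partner_ne (e : Fin (2 * R) ≃ X) (x : X) : partner e x ≠ x := by
  intro h
  unfold partner at h
  have h' : flpFin R (e.symm x) = e.symm x := by
    apply e.injective; rw [h, Equiv.apply_symm_apply]
  exact flp_ne _ (congrArg Fin.val h')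

theorem partner_div (e : Fin (2 * R) ≃ X) (x : X) :
    (e.symm (partner e x)).val / 2 = (e.symm x).val / 2 := by
  unfold partner
  rw [Equiv.symm_apply_apply]
  exact flp_div _

theorem eq_or_partner (e : Fin (2 * R) ≃ X) {x y : X}
    (h : (e.symm x).val / 2 = (e.symm y).val / 2) : y = x ∨ y = partner e x := by
  rcases eq_or_flp h with h | h
  · left; apply e.symm.injective; exact Fin.ext h
  · right; unfold partner; apply e.symm.injective
    rw [Equiv.symm_apply_apply]; exact Fin.ext h

theorem initial_of_pairs [Fintype X] (e : Fin (2 * R) ≃ X) (s : X → ℤ)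
    (hs : ∀ x, s x = 1 ∨ s x = -1)
    (h : ∀ r, 0 ≤ ∑ x ∈ Finset.univ.filter (fun x => (e.symm x).val / 2 < r), s x) (t : ℕ) :
    -1 ≤ ∑ x ∈ Finset.univ.filter (fun x => (e.symm x).val < t), s x := by
  classical
  have heven : ∀ r, 0 ≤ ∑ x ∈ Finset.univ.filter (fun x => (e.symm x).val < 2 * r), s x := by
    intro r
    have : (Finset.univ.filter (fun x => (e.symm x).val < 2 * r)) =
        Finset.univ.filter (fun x => (e.symm x).val / 2 < r) := by
      ext x; simp only [Finset.mem_filter, Finset.mem_univ, true_and]; omega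
    rw [this]; exact h r
  rcases Nat.even_or_odd' t with ⟨r, rfl | rfl⟩
  · linarith [heven r]
  · have hsplit : Finset.univ.filter (fun x => (e.symm x).val < 2 * r + 1) =
        Finset.univ.filter (fun x => (e.symm x).val < 2 * r) ∪
        Finset.univ.filter (fun x => (e.symm x).val = 2 * r) := by
      ext x; simp only [Finset.mem_filter, Finset.mem_univ, true_and, Finset.mem_union]; omega
    have hdisj : Disjoint (Finset.univ.filter (fun x => (e.symm x).val < 2 * r))
        (Finset.univ.filter (fun x => (e.symm x).val = 2 * r)) := by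
      rw [Finset.disjoint_left]; intro x hx hx'
      simp only [Finset.mem_filter, Finset.mem_univ, true_and] at hx hx'; omega
    rw [hsplit, Finset.sum_union hdisj]
    have hcard : (Finset.univ.filter (fun x : X => (e.symm x).val = 2 * r)).card ≤ 1 := by
      rw [Finset.card_le_one]
      intro a ha b hb
      simp only [Finset.mem_filter, Finset.mem_univ, true_and] at ha hb
      apply e.symm.injective; apply Fin.ext; omega
    have hge : -1 ≤ ∑ x ∈ Finset.univ.filter (fun x => (e.symm x).val = 2 * r), s x := by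
      have h1 : ∑ x ∈ Finset.univ.filter (fun x : X => (e.symm x).val = 2 * r), (-1 : ℤ) ≤
          ∑ x ∈ Finset.univ.filter (fun x => (e.symm x).val = 2 * r), s x := by
        apply Finset.sum_le_sum
        intro x _; rcases hs x with h | h <;> rw [h] <;> norm_num
      rw [Finset.sum_const, nsmul_eq_mul] at h1
      have h2 : ((Finset.univ.filter (fun x : X => (e.symm x).val = 2 * r)).card : ℤ) ≤ 1 := by
        exact_mod_cast hcard
      linarith
    linarith [heven r]

/-- The crossing conclusion: the value difference `D` is at most one good of the larger side. -/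
def Crossing {X : Type*} [Fintype X] (s : X → ℤ) (v : X → ℝ) : Prop :=
  (∑ x, v x * (s x : ℝ) = 0) ∨
  (∃ g, s g = 1 ∧ 0 ≤ ∑ x, v x * (s x : ℝ) ∧ ∑ x, v x * (s x : ℝ) ≤ v g) ∨
  (∃ g, s g = -1 ∧ ∑ x, v x * (s x : ℝ) ≤ 0 ∧ - ∑ x, v x * (s x : ℝ) ≤ v g)

theorem even_case [Fintype X] (e1 e2 : Fin (2 * R) ≃ X) (v : X → ℝ) (hv : ∀ x, 0 ≤ v x) :
    ∃ s : X → ℤ, (∀ x, s x = 1 ∨ s x = -1) ∧
      (∀ t : ℕ, -1 ≤ ∑ x ∈ Finset.univ.filter (fun x => (e1.symm x).val < t), s x) ∧
      (∀ t : ℕ, ∑ x ∈ Finset.univ.filter (fun x => (e2.symm x).val < t), s x ≤ 1) ∧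
      Crossing s v := by
  classical
  have h1 := partner_partner e1
  have h2 := partner_partner e2
  obtain ⟨B, hB1, hB2⟩ := exists_split
    (Function.Involutive.toPerm (partner e1) h1) (Function.Involutive.toPerm (partner e2) h2)
    h1 h2 (partner_ne e1) (partner_ne e2)
  have hB1' : ∀ x, partner e1 x ∈ B ↔ x ∉ B := hB1
  have hB2' : ∀ x, partner e2 x ∈ B ↔ x ∉ B := hB2
  -- choose the side with the larger value
  have hA : ∃ A : Finset X, (∀ x, partner e1 x ∈ A ↔ x ∉ A) ∧ (∀ x, partner e2 x ∈ A ↔ x ∉ A) ∧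
      0 ≤ DD A (partner e2) v ∅ := by
    by_cases h0 : 0 ≤ DD B.toFinset (partner e2) v ∅
    · refine ⟨B.toFinset, ?_, ?_, h0⟩
      · intro x; simp only [Set.mem_toFinset]; exact hB1' x
      · intro x; simp only [Set.mem_toFinset]; exact hB2' x
    · refine ⟨(B.toFinset)ᶜ, ?_, ?_, ?_⟩
      · intro x; simp only [Finset.mem_compl, Set.mem_toFinset]; rw [hB1']
      · intro x; simp only [Finset.mem_compl, Set.mem_toFinset]; rw [hB2']
      · have : DD (B.toFinset)ᶜ (partner e2) v ∅ = - DD B.toFinset (partner e2) v ∅ := by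
          unfold DD
          rw [← Finset.sum_neg_distrib]
          apply Finset.sum_congr rfl
          intro x _
          by_cases hx : x ∈ B
          · simp [sgn, hx]
          · simp [sgn, hx]
        rw [this]; push Not at h0; linarith
  obtain ⟨A, hA1, hA2, h0⟩ := hA
  set rho : X → ℕ := fun x => (e1.symm x).val / 2 with hrho
  have hinj : ∀ x ∈ A, ∀ y ∈ A, rho x = rho y → x = y := by
    intro x hx y hy h
    rcases eq_or_partner e1 h with h | h
    · exact h.symm
    · exfalso
      rw [h, hA1] at hy; exact hy hx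
  obtain ⟨K, hK, hcross⟩ := exists_state h1 h2 hA1 hA2 hinj v hv h0
  have hsg : ∀ x, sgn A (partner e2) K x = 1 ∨ sgn A (partner e2) K x = -1 := by
    intro x; unfold sgn; split_ifs <;> simp
  refine ⟨sgn A (partner e2) K, hsg, ?_, ?_, ?_⟩
  · apply initial_of_pairs e1 _ hsg
    intro r
    exact sum_sgn_t1 h1 hA1 (partner_div e1) hK r
  · intro t
    have := initial_of_pairs e2 (fun x => - sgn A (partner e2) K x)
      (fun x => by rcases hsg x with h | h <;> simp [h]) (by
        intro r
        rw [Finset.sum_neg_distrib]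
        have h3 := sum_sgn_t2 (rho := fun x => (e2.symm x).val / 2) h2 hA2 (partner_div e2) K r
        rw [h3]; simp) t
    rw [Finset.sum_neg_distrib] at this
    linarith
  · exact hcross

end Even

section General

variable {M : Type*}

/-- The case of an arbitrary number of goods; rankings are enumerations of the goods. -/
theorem any_case [Fintype M] {m : ℕ} (e1 e2 : Fin m ≃ M) (v : M → ℝ) (hv : ∀ x, 0 ≤ v x) :
    ∃ s : M → ℤ, (∀ x, s x = 1 ∨ s x = -1) ∧
      (∀ t : ℕ, t ≤ m → -1 ≤ ∑ x ∈ Finset.univ.filter (fun x => (e1.symm x).val < t), s x) ∧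
      (∀ t : ℕ, t ≤ m → ∑ x ∈ Finset.univ.filter (fun x => (e2.symm x).val < t), s x ≤ 1) ∧
      Crossing s v := by
  classical
  rcases Nat.even_or_odd' m with ⟨R, rfl | rfl⟩
  · obtain ⟨s, hs, ha, hb, hc⟩ := even_case e1 e2 v hv
    exact ⟨s, hs, fun t _ => ha t, fun t _ => hb t, hc⟩
  · -- add a dummy good at the bottom of both rankings
    let E : (Fin (2 * R + 1) ≃ M) → (Fin (2 * (R + 1)) ≃ Option M) := fun e =>
      (finCongr (by ring)).trans ((finSuccEquivLast (n := 2 * R + 1)).trans (Equiv.optionCongr e))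
    have hE : ∀ (e : Fin (2 * R + 1) ≃ M) (x : M),
        ((E e).symm (some x)).val = (e.symm x).val := by
      intro e x
      have h : (E e).symm (some x) =
          (finCongr (by ring : 2 * (R + 1) = 2 * R + 1 + 1)).symm
            (finSuccEquivLast.symm (some (e.symm x))) := rfl
      rw [h, finSuccEquivLast_symm_some]
      rfl
    have hE' : ∀ (e : Fin (2 * R + 1) ≃ M), ((E e).symm none).val = 2 * R + 1 := by
      intro e
      have h : (E e).symm none =
          (finCongr (by ring : 2 * (R + 1) = 2 * R + 1 + 1)).symm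
            (finSuccEquivLast.symm none) := rfl
      rw [h, finSuccEquivLast_symm_none]
      rfl
    let v' : Option M → ℝ := fun o => o.elim 0 v
    have hv' : ∀ x, 0 ≤ v' x := by
      intro x; cases x with
      | none => simp [v']
      | some x => exact hv x
    obtain ⟨s, hs, ha, hb, hc⟩ := even_case (E e1) (E e2) v' hv'
    have hpre : ∀ (e : Fin (2 * R + 1) ≃ M) (t : ℕ), t ≤ 2 * R + 1 →
        ∑ x ∈ Finset.univ.filter (fun x => ((E e).symm x).val < t), s x =
        ∑ x ∈ Finset.univ.filter (fun x => (e.symm x).val < t), s (some x) := by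
      intro e t ht
      rw [Finset.sum_filter, Finset.sum_filter, Fintype.sum_option]
      rw [hE']
      have : ¬ (2 * R + 1 < t) := by omega
      rw [if_neg this, zero_add]
      apply Finset.sum_congr rfl
      intro x _
      rw [hE]
    have hD : ∑ x, v' x * (s x : ℝ) = ∑ x, v x * (s (some x) : ℝ) := by
      rw [Fintype.sum_option]; simp [v']
    refine ⟨fun x => s (some x), fun x => hs _, ?_, ?_, ?_⟩
    · intro t ht; rw [← hpre e1 t ht]; exact ha t
    · intro t ht; rw [← hpre e2 t ht]; exact hb t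
    · unfold Crossing at hc ⊢
      rw [hD] at hc
      rcases hc with hc | ⟨g, hg, h0, hle⟩ | ⟨g, hg, h0, hle⟩
      · exact Or.inl hc
      · cases g with
        | none => left; exact le_antisymm hle h0
        | some g => right; left; exact ⟨g, hg, h0, hle⟩
      · cases g with
        | none => left; simp only [v', Option.elim_none] at hle; linarith
        | some g => right; right; exact ⟨g, hg, h0, hle⟩

/-- an enumeration of the goods by decreasing utility, and its upper sets -/
theorem exists_ranking [Fintype M] (u : M → ℝ) :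
    ∃ e : Fin (Fintype.card M) ≃ M, ∀ g : M, ∃ t ≤ Fintype.card M,
      ∀ x, u g ≤ u x ↔ (e.symm x).val < t := by
  classical
  let e0 := (Fintype.equivFin M).symm
  let f : Fin (Fintype.card M) → ℝ := fun k => - u (e0 k)
  let e : Fin (Fintype.card M) ≃ M := (Tuple.sort f).trans e0
  have hmono : Monotone (fun k => - u (e k)) := by
    have := Tuple.monotone_sort f
    exact this
  have hanti : ∀ k l : Fin (Fintype.card M), k ≤ l → u (e l) ≤ u (e k) := by
    intro k l h
    have := hmono h
    simp only at this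
    linarith
  refine ⟨e, fun g => ?_⟩
  -- the set of positions with utility at least u g is an initial segment
  refine ⟨(Finset.univ.filter (fun k => u g ≤ u (e k))).card, ?_, ?_⟩
  · calc _ ≤ (Finset.univ : Finset (Fin (Fintype.card M))).card := Finset.card_filter_le _ _
      _ = Fintype.card M := by simp
  · intro x
    set F := Finset.univ.filter (fun k => u g ≤ u (e k)) with hF
    have hx : e (e.symm x) = x := Equiv.apply_symm_apply _ _
    constructor
    · intro h
      -- all k ≤ e.symm x are in F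
      have hsub : Finset.Iic (e.symm x) ⊆ F := by
        intro k hk
        rw [Finset.mem_Iic] at hk
        rw [hF, Finset.mem_filter]
        refine ⟨Finset.mem_univ _, ?_⟩
        have := hanti k (e.symm x) hk
        rw [hx] at this; linarith
      have := Finset.card_le_card hsub
      rw [Fin.card_Iic] at this
      omega
    · intro h
      by_contra hlt
      -- F is contained in the positions below e.symm x
      have hsub : F ⊆ Finset.Iio (e.symm x) := by
        intro k hk
        rw [hF, Finset.mem_filter] at hk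
        rw [Finset.mem_Iio]
        by_contra hge
        push Not at hge
        have := hanti (e.symm x) k hge
        rw [hx] at this
        exact hlt (le_trans hk.2 this)
      have := Finset.card_le_card hsub
      rw [Fin.card_Iio] at this
      omega

end General

end Pool.Agent.Hhelper76.SDEF
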